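import Mathlib
import Pool.Agent.H31.RSP

set_option autoImplicit false

namespace Pool.Agent.Results.MP_84eedd_co.Q1True
open Polynomial H31.RSP

theorem result (n : ℕ) (hn : 1 ≤ n) (lam : ℕ → ℝ) (hlam : ∀ k, 1 ≤ k → k ≤ n → 0 < lam k)
    (z : ℂ) (hz : aeval z (q lam n) = 0) : z.im = 0 := by
  obtain ⟨m, rfl⟩ : ∃ m, n = m + 1 := ⟨n - 1, by omega⟩
  have hl : ∀ k, 1 ≤ k → k ≤ m → 0 < lam k := fun k h1 h2 => hlam k h1 (by omega)
  rcases lt_trichotomy z.im 0 with h1 | h1 | h1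
  · exfalso
    apply q_ne lam m hl ((starRingEnd ℂ) z) (by simpa using h1)
    rw [Polynomial.aeval_conj, hz, map_zero]
  · exact h1
  · exact absurd hz (q_ne lam m hl z h1)

end Pool.Agent.Results.MP_84eedd_co.Q1True
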