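import Mathlib
import Pool.Agent.H31.RSP

set_option autoImplicit false

namespace Pool.Agent.Results.MP_84eedd_co.Q2False
open Polynomial H31.RSP

/-- The real roots of `f`, with multiplicity, in decreasing order. -/
noncomputable def decRoots (f : ℝ[X]) : List ℝ := f.roots.sort (· ≥ ·)

/-- All roots of `f` are real (counted with multiplicity) and nonpositive. -/
def RealNonpos (f : ℝ[X]) : Prop :=
  f ≠ 0 ∧ f.roots.card = f.natDegree ∧ ∀ r ∈ f.roots, r ≤ 0

/-- The chain `⋯ ≤ f_2 ≤ g_2 ≤ f_1 ≤ g_1`, each inequality required only when both roots exist. -/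
def Chain (f g : ℝ[X]) : Prop :=
  (∀ i, i < (decRoots f).length → i < (decRoots g).length →
      (decRoots f).getD i 0 ≤ (decRoots g).getD i 0) ∧
    (∀ i, i < (decRoots f).length → i + 1 < (decRoots g).length →
      (decRoots g).getD (i + 1) 0 ≤ (decRoots f).getD i 0)

/-- the weights -/
noncomputable def lam0 (k : ℕ) : ℝ := if k = 2 then 3 else if k = 4 then 30 else 1

lemma lam0_pos (k : ℕ) : 0 < lam0 k := by
  unfold lam0
  split_ifs <;> norm_num

lemma q5 : q lam0 5 = C 270 * X ^ 2 + C 104 * X + C 1 := by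
  rw [q_eq, T4]
  apply Polynomial.funext
  intro x
  simp [lam0]
  ring

lemma q6 : q lam0 6 = C 753 * X ^ 2 + C 295 * X + C 1 := by
  rw [q_eq, T5]
  apply Polynomial.funext
  intro x
  simp [lam0]
  ring

lemma rn (a b : ℝ) (ha : 0 < a) (hb : 0 < b) (f : ℝ[X]) (hf : f = C a * X ^ 2 + C b * X + C 1)
    (h : ∀ z : ℂ, 0 < z.im → aeval z f ≠ 0) : RealNonpos f ∧ (decRoots f).length = 2 := by
  have hd : f.natDegree = 2 := by rw [hf]; exact natDegree_quadratic ha.ne'
  have hc := H31.Interl.card_roots f h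
  refine ⟨⟨fun e => by rw [e] at hd; simp at hd, hc, fun r hr => ?_⟩, ?_⟩
  · have h0 := (mem_roots'.mp hr).2
    rw [IsRoot.def, hf] at h0
    simp only [eval_add, eval_mul, eval_C, eval_pow, eval_X] at h0
    by_contra hh
    push Not at hh
    have : 0 < a * r ^ 2 + b * r + 1 := by positivity
    linarith
  · rw [decRoots, Multiset.length_sort, hc, hd]

theorem result : ∃ (lam : ℕ → ℝ) (n : ℕ), (∀ k, 0 < lam k) ∧ 1 < n ∧
    RealNonpos (q lam (n - 1)) ∧ RealNonpos (q lam n) ∧ ¬ Chain (q lam (n - 1)) (q lam n) := by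
  obtain ⟨r5, l5⟩ := rn 270 104 (by norm_num) (by norm_num) _ q5
    (fun z hz => q_ne lam0 4 (fun k _ _ => lam0_pos k) z hz)
  obtain ⟨r6, l6⟩ := rn 753 295 (by norm_num) (by norm_num) _ q6
    (fun z hz => q_ne lam0 5 (fun k _ _ => lam0_pos k) z hz)
  refine ⟨lam0, 6, lam0_pos, by norm_num, r5, r6, fun h => ?_⟩
  have h1 := h.1 1 (by rw [show 6 - 1 = 5 from rfl, l5]; norm_num) (by rw [l6]; norm_num)
  rw [show 6 - 1 = 5 from rfl, List.getD_eq_getElem _ _ (by omega : 1 < (decRoots (q lam0 5)).length),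
    List.getD_eq_getElem _ _ (by omega : 1 < (decRoots (q lam0 6)).length)] at h1
  have a1 : (-38 / 100 : ℝ) < (decRoots (q lam0 5))[1] := by
    have hm : (decRoots (q lam0 5))[1] ∈ (q lam0 5).roots :=
      (Multiset.mem_sort _).mp (List.getElem_mem _)
    have h0 := (mem_roots'.mp hm).2
    generalize (decRoots (q lam0 5))[1] = r at h0 ⊢
    rw [IsRoot.def, q5] at h0
    simp only [eval_add, eval_mul, eval_C, eval_pow, eval_X] at h0
    by_contra hh
    push Not at hh
    nlinarith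
  have a2 : ∃ r ∈ (q lam0 6).roots, r ≤ (-38 / 100 : ℝ) := by
    have hc : ContinuousOn (fun x : ℝ => 753 * x ^ 2 + 295 * x + 1) (Set.Icc (-1) (-38 / 100)) := by
      fun_prop
    obtain ⟨r, hr, e⟩ := intermediate_value_Icc' (by norm_num : (-1 : ℝ) ≤ -38 / 100) hc
      (show (0 : ℝ) ∈ _ from ⟨by norm_num, by norm_num⟩)
    refine ⟨r, (mem_roots r6.1).mpr ?_, hr.2⟩
    rw [IsRoot.def, q6]
    simp only [eval_add, eval_mul, eval_C, eval_pow, eval_X]
    exact e
  obtain ⟨r, hr, hr'⟩ := a2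
  have hm : r ∈ decRoots (q lam0 6) := (Multiset.mem_sort _).mpr hr
  obtain ⟨j, hj, rfl⟩ := List.getElem_of_mem hm
  have hp : (decRoots (q lam0 6)).Pairwise (· ≥ ·) := Multiset.pairwise_sort _ _
  have : (decRoots (q lam0 6))[1] ≤ (decRoots (q lam0 6))[j] := by
    rcases Nat.eq_zero_or_pos j with rfl | hj0
    · exact List.pairwise_iff_getElem.mp hp 0 1 hj (by omega) (by omega)
    · have : j = 1 := by omega
      subst this
      exact le_rfl
  linarith

end Pool.Agent.Results.MP_84eedd_co.Q2False
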